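import Pool.Agent.Q71.SE.Gap
import Pool.Agent.Q71.SE.Comp

/-!
# Groups without essentially free compact actions have a scaling entropy growth gap
-/

namespace Pool.Agent.Results.MP_0c3bbf_an.GapCriterion

open Filter Q71.SE

/-- The group has a scaling entropy growth gap: for some Folner sequence `F` there is `φ : ℕ → ℕ`
tending to infinity which is a lower bound for the scaling entropy of every essentially free
p.m.p. action. -/
def HasGrowthGap (G : Type) [Group G] : Prop :=
  ∃ F : ℕ → Finset G, IsFolner F ∧
    ∃ φ : ℕ → ℕ, Tendsto φ atTop atTop ∧ IsUniversalLowerBound G F φ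

/-- **Q1, proved.** Every countable amenable group `G` without essentially free compact p.m.p.
action has a scaling entropy growth gap; moreover every Folner sequence of `G` has a universal
lower bound tending to infinity. -/
theorem result (G : Type) [Group G] [Countable G] (hG : ∃ F : ℕ → Finset G, IsFolner F)
    (hno : ¬ HasFreeCompactAction G) :
    HasGrowthGap G ∧
    ∀ F : ℕ → Finset G, IsFolner F →
      ∃ φ : ℕ → ℕ, Tendsto φ atTop atTop ∧ IsUniversalLowerBound G F φ := by
  have key : ∀ F : ℕ → Finset G, IsFolner F →
      ∃ φ : ℕ → ℕ, Tendsto φ atTop atTop ∧ IsUniversalLowerBound G F φ := by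
    intro F hF
    have h1 : ∃ g₀ : G, g₀ ≠ 1 ∧ InKer g₀ := by
      by_contra hcon
      push Not at hcon
      obtain ⟨D, hD, hpos⟩ := exists_faithful hcon
      exact hno (hasFreeCompactAction_of_faithful hF hD hpos)
    obtain ⟨g₀, hne, hg₀⟩ := h1
    exact gap_of_inKer hg₀ hne hF
  obtain ⟨F, hF⟩ := hG
  exact ⟨⟨F, hF, key F hF⟩, key⟩

end Pool.Agent.Results.MP_0c3bbf_an.GapCriterion
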